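/-! H529/D: kernel-friendly packed arithmetic (no imports). `2^D` slots, blocks of `Bo` bits. -/

namespace Pool.Agent.H529.D

/-- packed array of `f lo, f (lo+1), ...` -/
noncomputable def gen (Bo : Nat) (f : Nat → Nat) (D : Nat) : Nat → Nat :=
  @Nat.rec (fun _ => Nat → Nat) (fun lo => f lo)
    (fun k ih lo => Nat.add (ih lo)
      (Nat.shiftLeft (ih (Nat.add lo (Nat.pow 2 k))) (Nat.mul Bo (Nat.pow 2 k)))) D

/-- packed array in the reversed order, of a function of the index and of the digits of two packed arrays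
(blocks of `Bb` bits) -/
noncomputable def genr (Bo Bb : Nat) (f : Nat → Nat → Nat → Nat) (D : Nat) : Nat → Nat → Nat → Nat :=
  @Nat.rec (fun _ => Nat → Nat → Nat → Nat) (fun lo y z => f lo y z)
    (fun k ih lo y z => Nat.add
      (Nat.shiftLeft (ih lo (Nat.land y (Nat.sub (Nat.shiftLeft 1 (Nat.mul Bb (Nat.pow 2 k))) 1))
        (Nat.land z (Nat.sub (Nat.shiftLeft 1 (Nat.mul Bb (Nat.pow 2 k))) 1))) (Nat.mul Bo (Nat.pow 2 k)))
      (ih (Nat.add lo (Nat.pow 2 k)) (Nat.shiftRight y (Nat.mul Bb (Nat.pow 2 k)))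
        (Nat.shiftRight z (Nat.mul Bb (Nat.pow 2 k))))) D

/-- truncated product; `s = Bo * 2^D` -/
noncomputable def mu (s x y : Nat) : Nat := Nat.land (Nat.mul x y) (Nat.sub (Nat.shiftLeft 1 s) 1)

/-- inner product: the top block of the product; `t = Bo * (2^D - 1)` -/
noncomputable def ip (s t x y : Nat) : Nat := Nat.shiftRight (mu s x y) t

section
variable (Bo s D : Nat) (ph q : Nat → Nat)

noncomputable def P1 : Nat := gen Bo q D 0
noncomputable def Q1 : Nat := gen Bo (fun c => Nat.mul (q c) (ph c)) D 0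
noncomputable def Q2 : Nat := gen Bo (fun c => Nat.mul (q c) (Nat.mul (ph c) (ph c))) D 0
noncomputable def P2 : Nat := mu s (P1 Bo D q) (P1 Bo D q)
noncomputable def P4 : Nat := mu s (P2 Bo s D q) (P2 Bo s D q)
noncomputable def P5 : Nat := mu s (P4 Bo s D q) (P1 Bo D q)
noncomputable def P10 : Nat := mu s (P5 Bo s D q) (P5 Bo s D q)
noncomputable def P20 : Nat := mu s (P10 Bo s D q) (P10 Bo s D q)
noncomputable def P40 : Nat := mu s (P20 Bo s D q) (P20 Bo s D q)
noncomputable def P41 : Nat := mu s (P40 Bo s D q) (P1 Bo D q)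
noncomputable def P42 : Nat := mu s (P41 Bo s D q) (P1 Bo D q)
noncomputable def P43 : Nat := mu s (P42 Bo s D q) (P1 Bo D q)
noncomputable def P44 : Nat := mu s (P43 Bo s D q) (P1 Bo D q)
noncomputable def Q11 : Nat := mu s (Q1 Bo D ph q) (Q1 Bo D ph q)
/-- moments for 43 variables -/
noncomputable def E1 : Nat := Nat.mul 43 (mu s (Q1 Bo D ph q) (P42 Bo s D q))
noncomputable def E2 : Nat := Nat.add (Nat.mul 43 (mu s (Q2 Bo D ph q) (P42 Bo s D q)))
  (Nat.mul 1806 (mu s (Q11 Bo s D ph q) (P41 Bo s D q)))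
/-- moments for 44 variables -/
noncomputable def F1 : Nat := Nat.mul 44 (mu s (Q1 Bo D ph q) (P43 Bo s D q))
noncomputable def F2 : Nat := Nat.add (Nat.mul 44 (mu s (Q2 Bo D ph q) (P43 Bo s D q)))
  (Nat.mul 1892 (mu s (Q11 Bo s D ph q) (P42 Bo s D q)))

end

section
variable (Bb D : Nat) (g ph h0 h1 : Nat → Nat)
/-- correlations: `AP`, `AM`, `BB` have the digits `ap, am, bb`; `N = 2^D`, `tb = Bb * (N - 1)` -/
noncomputable def RG (N : Nat) : Nat := gen Bb (fun lo => g (Nat.sub (Nat.sub N 1) lo)) D 0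
noncomputable def RGP (N : Nat) : Nat := gen Bb (fun lo => Nat.mul (g (Nat.sub (Nat.sub N 1) lo)) (ph (Nat.sub (Nat.sub N 1) lo))) D 0
noncomputable def AP (N tb : Nat) : Nat := Nat.shiftRight (Nat.mul (RG Bb D g N) (gen Bb h0 D 0)) tb
noncomputable def AM (N tb : Nat) : Nat := Nat.shiftRight (Nat.mul (RGP Bb D g ph N) (gen Bb h1 D 0)) tb
noncomputable def BB (N tb : Nat) : Nat := Nat.shiftRight (Nat.mul (RG Bb D g N) (gen Bb h1 D 0)) tb
/-- `YY` has the digits `ap - am` (if these are nonnegative) -/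
noncomputable def YY (N tb : Nat) : Nat := Nat.sub (AP Bb D g h0 N tb) (AM Bb D g ph h1 N tb)
end

section
variable (Bo Bb s t D : Nat) (ph q w : Nat → Nat) (y z : Nat)
/-- weight arrays, reversed; `w` is the weight of the slot, `y`, `z` are packed arrays -/
noncomputable def AL : Nat := genr Bo Bb (fun n a _ => Nat.mul (w n) (Nat.mul a a)) D 0 y z
noncomputable def BE : Nat := genr Bo Bb (fun n a b => Nat.mul (w n) (Nat.mul 2 (Nat.mul a b))) D 0 y z
noncomputable def GA : Nat := genr Bo Bb (fun n _ b => Nat.mul (w n) (Nat.mul b b)) D 0 y z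
/-- positive and negative part of the quadratic form -/
noncomputable def LP : Nat := Nat.add (ip s t (P43 Bo s D q) (AL Bo Bb D w y z)) (ip s t (E2 Bo s D ph q) (GA Bo Bb D w y z))
noncomputable def LM : Nat := ip s t (E1 Bo s D ph q) (BE Bo Bb D w y z)
end

section
variable (Bo s D : Nat) (ph q h0 h1 : Nat → Nat)
/-- the norm of the sieve weight: positive and negative part; `b2 = 2 h0 h1` etc. are given as reversed arrays -/
noncomputable def NP (t : Nat) : Nat :=
  Nat.add (ip s t (P44 Bo s D q) (genr Bo 1 (fun n _ _ => Nat.mul (h0 n) (h0 n)) D 0 0 0))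
    (ip s t (F2 Bo s D ph q) (genr Bo 1 (fun n _ _ => Nat.mul (h1 n) (h1 n)) D 0 0 0))
noncomputable def NM (t : Nat) : Nat :=
  ip s t (F1 Bo s D ph q) (genr Bo 1 (fun n _ _ => Nat.mul 2 (Nat.mul (h0 n) (h1 n))) D 0 0 0)
end

end Pool.Agent.H529.D
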