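import Mathlib
import Pool.Graph.R_seed8.H95R2.BG.CertMath
import Pool.Agent.H529.C.Defs
import Pool.Agent.H529.D.KDefs

/-!
# The certificate for `DHL[44,2]`: generic definitions and statements (helper529)

Compare `Pool/Graph/R_seed8/Y826/ZC/CM.lean` (definitions), `Y333/ZC/KB.lean` (box sums), `Y141/ZC/KA.lean, KAb.lean,
KAm.lean` (packed arithmetic), `Y826/ZC/KE.lean`, `Y68/ZC/KD.lean`, `Y826/ZC/Dhl.lean` (assembly) of the library,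
where the same is done for `DHL[45,2]` with fixed numbers.
-/

set_option autoImplicit false

open Finset Filter

namespace Pool.Agent.H529.D

open Pool.Agent.H95R2.BG Pool.Agent.Y826.Z Pool.Agent.H529.C
open Pool.Agent.H95R2.BG.Cert (pk cf pkS nrm G1 G2)

/-! ### Generic sieve weight -/

/-- correlations -/
noncomputable def ap (NN : ℕ) (g h0 : ℕ → ℕ) (n : ℕ) : ℕ := ∑ t ∈ range (NN - n), g t * h0 (n + t)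
noncomputable def am (NN : ℕ) (g ph h1 : ℕ → ℕ) (n : ℕ) : ℕ := ∑ t ∈ range (NN - n), g t * ph t * h1 (n + t)
noncomputable def bb (NN : ℕ) (g h1 : ℕ → ℕ) (n : ℕ) : ℕ := ∑ t ∈ range (NN - n), g t * h1 (n + t)

/-- the sieve weight function -/
noncomputable def FF (NN : ℕ) (g ph h0 h1 : ℕ → ℕ) {K : ℕ} (c : Fin K → ℕ) : ℝ :=
  if ∑ j, c j < NN then
    (∏ j, (g (c j) : ℝ)) * ((h0 (∑ j, c j) : ℝ) - h1 (∑ j, c j) * ∑ j, (ph (c j) : ℝ))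
  else 0

/-- the second factor of the marginals -/
noncomputable def xi (NN : ℕ) (g ph h0 h1 : ℕ → ℕ) {K : ℕ} (c : Fin K → ℕ) : ℝ :=
  (ap NN g h0 (∑ j, c j) : ℝ) - am NN g ph h1 (∑ j, c j) - bb NN g h1 (∑ j, c j) * ∑ j, (ph (c j) : ℝ)

/-- generating series of a weight and of its first two moments -/
noncomputable def Ps (q : ℕ → ℕ) : PowerSeries ℕ := PowerSeries.mk q
noncomputable def Ps1 (ph q : ℕ → ℕ) : PowerSeries ℕ := PowerSeries.mk (fun i => q i * ph i)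
noncomputable def Ps2 (ph q : ℕ → ℕ) : PowerSeries ℕ := PowerSeries.mk (fun i => q i * (ph i * ph i))

/-- the quadratic form of a weight `q` at the radius `n`, for `K` variables -/
noncomputable def XQ (NN : ℕ) (g ph h0 h1 : ℕ → ℕ) (K : ℕ) (q : ℕ → ℕ) (n : ℕ) : ℝ :=
  ((ap NN g h0 n : ℝ) - am NN g ph h1 n) ^ 2 * (cf (Ps q ^ K) n : ℝ) -
    2 * ((ap NN g h0 n : ℝ) - am NN g ph h1 n) * bb NN g h1 n * (cf (G1 K (Ps q) (Ps1 ph q)) n : ℝ) +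
    (bb NN g h1 n : ℝ) ^ 2 * (cf (G2 K (Ps q) (Ps1 ph q) (Ps2 ph q)) n : ℝ)

/-- Task DB: the box sums (copy `Y333/ZC/KB.lean`) -/
def S_BOX : Prop := ∀ (K NN : ℕ) (g ph h0 h1 : ℕ → ℕ), 2 ≤ K →
  (∀ c : Fin (K + 1) → ℕ, FF NN g ph h0 h1 c ≠ 0 → rad c ≤ NN + K) ∧
  (∑ c ∈ Box (K + 1) NN, FF NN g ph h0 h1 c ^ 2 =
    ∑ n ∈ range NN, ((h0 n : ℝ) ^ 2 * (cf (Ps (fun i => g i * g i) ^ (K + 1)) n : ℝ) +
      (h1 n : ℝ) ^ 2 * (cf (G2 (K + 1) (Ps (fun i => g i * g i)) (Ps1 ph (fun i => g i * g i)) (Ps2 ph (fun i => g i * g i))) n : ℝ) -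
      2 * ((h0 n : ℝ) * h1 n) * (cf (G1 (K + 1) (Ps (fun i => g i * g i)) (Ps1 ph (fun i => g i * g i))) n : ℝ))) ∧
  (∀ (i : Fin (K + 1)) (c : Fin K → ℕ), UU NN (FF NN g ph h0 h1) i c ≠ 0 → ∑ j, c j < NN ∧ ∀ j, g (c j) ≠ 0) ∧
  (∀ (i : Fin (K + 1)) (c : Fin K → ℕ), ∑ j, c j < NN →
    UU NN (FF NN g ph h0 h1) i c = (∏ j, (g (c j) : ℝ)) * xi NN g ph h0 h1 c) ∧
  (∀ (q : ℕ → ℕ) (w : ℕ → ℝ),
    ∑ c ∈ Box K NN, (if ∑ j, c j < NN then w (∑ j, c j) * ((∏ j, (q (c j) : ℝ)) * xi NN g ph h0 h1 c ^ 2) else 0) =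
      ∑ n ∈ range NN, w n * XQ NN g ph h0 h1 K q n)

/-- a bad event: the coordinates `< X` are small in total -/
def Evt {K : ℕ} (X nf : ℕ) (c : Fin K → ℕ) : Prop := (∑ j, if c j < X then c j + 1 else 0) ≤ nf

/-- Task DG: the criterion with levels of goodness. The cell `c` has the class `k` = the least `k ≤ nl` such that
`c` satisfies `GdG` for all the levels `b` with `k ≤ b < nl`; its weight is `W k n`, `n = ∑ c`, and its effective radius is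
`rad c + pen k`. For `k ≥ 1` the cell is not good for the level `k - 1`, so (`cap` and `rd` hold for all the cells of
`A := (Box K NN).filter (∑ < NN ∧ ∀ j, c j < cap)`) some threshold `j ≤ m (k-1)` fails, `hcov` gives a set `S` of events
which all contain `c`, and `W 0 n - W k n ≤ ∑ e ∈ S, De e n`. Hence `∑ c∈A, W(c) UU^2 ≥ ∑ c∈A, W 0 n UU^2 -
∑ e, ∑ c∈A with Evt, De e n UU^2`, and the last sums are bounded with `htilt` and `S_BOX`. Two cells of classes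
`a ≤ b` with `ρ + ρ' ≤ 2 L` have `rad + rad' ≤ 2 L - pen b`, so `Ev` holds by the grouping lemma for the level `b`
(`S_CC`-conclusion `hcomb`) or, for `b = nl`, by `rad + rad' ≤ 2 N1`. Then apply `S_LAY` with `M = NN`, `R = NN + K - 1`.
(compare `Y826/ZC/KE.lean`, `Y826/ZC/Dhl.lean`) -/
def S_GEN : Prop := S_BOX → S_LAY →
  (∀ {τ s w V0 Bp : ℝ} {x G l : ℕ → ℝ} {k a m : ℕ},
    ParG τ s w V0 Bp x G l k a m → ∀ (K0 N1 : ℕ), 0 < N1 → ∀ c c' : Fin K0 → ℕ, GdG Bp x G m N1 c → GdG Bp x G m N1 c' →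
    ((rad c + rad c' : ℕ) : ℝ) / N1 ≤ 2 + τ → Ev N1 c c') →
  ∀ (K NN N1 L Dm cap : ℕ) (g ph h0 h1 : ℕ → ℕ), 2 ≤ K → 0 < N1 → NN ≤ 2 * N1 → NN + K ≤ 2 * N1 → Dm < L → L ≤ 2 * N1 →
    (∀ c, cap ≤ c → g c = 0) → (cap : ℝ) ≤ 0.665 * N1 →
  -- the levels
  ∀ (nl : ℕ) (τ s w V0 Bp : ℕ → ℝ) (x G l : ℕ → ℕ → ℝ) (k a m : ℕ → ℕ),
    (∀ i, i < nl → ParG (τ i) (s i) (w i) (V0 i) (Bp i) (x i) (G i) (l i) (k i) (a i) (m i)) →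
    (∀ i, i < nl → ((NN + K : ℕ) : ℝ) / N1 ≤ Bp i + G i (m i) / 2) →
  ∀ (pen : ℕ → ℕ), (∀ i, i < nl → pen i ≤ pen (i + 1)) → (∀ i, i < nl → (2 * L : ℝ) - pen i ≤ (2 + τ i) * N1) →
    2 * L ≤ 2 * N1 + pen nl → NN + K + pen nl ≤ L + Dm + 1 →
  -- the weights
  ∀ (r : ℕ) (μ : Fin r → ℝ) (T : Fin r → ℕ), (∀ i, 0 ≤ μ i) → ∀ (W : ℕ → ℕ → ℝ),
    (∀ i, i ≤ nl → ∀ n, n < NN → n + K + pen i + Dm ≤ L → W i n ≤ 1) →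
    (∀ i, i ≤ nl → ∀ n, n < NN → L < n + K + pen i + Dm → n + K + pen i ≤ L →
      W i n ≤ 1 - 1 / (1 + 4 / (2 + ((n + K : ℕ) : ℝ) / N1) * ∑ j, if T j ≤ L - (n + K + pen i) then μ j else 0)) →
    (∀ i, i ≤ nl → ∀ n, n < NN → L < n + K + pen i →
      W i n ≤ - (4 * (∑ j, if T j < n + K + pen i - L then μ j else 0) / (2 - ((n + K : ℕ) : ℝ) / N1))) →
  -- the events
  ∀ (ne : ℕ) (Xe nfe : Fin ne → ℕ) (De : Fin ne → ℕ → ℝ) (qe : Fin ne → ℕ → ℕ) (Λ : Fin ne → ℝ),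
    (∀ e n, 0 ≤ De e n) → (∀ e, 0 ≤ Λ e) →
    (∀ i, i < nl → ∀ j, j ≤ m i → ∃ S : Finset (Fin ne),
      (∀ e ∈ S, (Xe e : ℝ) ≤ x i j * N1 ∧ G i j / 2 * N1 ≤ nfe e + 1) ∧
      ∀ n, n < NN → W 0 n - W (i + 1) n ≤ ∑ e ∈ S, De e n) →
    (∀ e, ∀ c : Fin K → ℕ, Evt (Xe e) (nfe e) c → (∏ j, (g (c j) : ℝ)) ^ 2 ≤ Λ e * ∏ j, (qe e (c j) : ℝ)) →
    (4 * (N1 : ℝ) * ∑ n ∈ range NN, ((h0 n : ℝ) ^ 2 * (cf (Ps (fun i => g i * g i) ^ (K + 1)) n : ℝ) +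
      (h1 n : ℝ) ^ 2 * (cf (G2 (K + 1) (Ps (fun i => g i * g i)) (Ps1 ph (fun i => g i * g i)) (Ps2 ph (fun i => g i * g i))) n : ℝ) -
      2 * ((h0 n : ℝ) * h1 n) * (cf (G1 (K + 1) (Ps (fun i => g i * g i)) (Ps1 ph (fun i => g i * g i))) n : ℝ)) <
      (K + 1) * (∑ n ∈ range NN, W 0 n * XQ NN g ph h0 h1 K (fun i => g i * g i) n -
        ∑ e, Λ e * ∑ n ∈ range NN, De e n * XQ NN g ph h0 h1 K (qe e) n)) →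
    ∀ (h : Fin (K + 1) → ℕ), Admissible h → ∀ (Q b : ℕ), Squarefree Q → (∀ i, (b + h i).Coprime Q) →
    ∀ ε : ℝ, 0 < ε → ∀ᶠ X : ℝ in atTop, X ^ (1 - ε) ≤ ((goodN h Q b X).card : ℝ)

/-! ### Packed arithmetic -/

/-- Task DP: meaning of the packed sums (copy `Y141/ZC/KA.lean, KAb.lean, KAm.lean`; the general lemmas are
`H95R2/BG/K1.lean, K2.lean`: `pkS_mul`, `pkS_add`, `pkS_natCast_mul`, `nrm_mul`, `nrm_pow`, `coeff_le_nrm`). `A0, A1, A2` are bounds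
for the truncated masses of `q`, `q ph`, `q ph^2`; `MA` is a bound for the digits of the weight arrays; `y`, `z` are the
digits (`< 2 ^ Bb`) of the packed arrays. -/
def S_PACK : Prop := ∀ (Bo Bb D A0 A1 A2 MA : ℕ) (ph q w y z : ℕ → ℕ),
    nrm (2 ^ D) (Ps q) ≤ A0 → nrm (2 ^ D) (Ps1 ph q) ≤ A1 → nrm (2 ^ D) (Ps2 ph q) ≤ A2 → 1 ≤ A0 → 1 ≤ MA →
    A1 ^ 2 < 2 ^ Bo →
    (A0 ^ 44 + 44 * (A1 * A0 ^ 43) + 44 * (A2 * A0 ^ 43) + 1892 * (A1 ^ 2 * A0 ^ 42)) * (2 ^ D * MA) < 2 ^ Bo →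
    (∀ n, n < 2 ^ D → y n < 2 ^ Bb) → (∀ n, n < 2 ^ D → z n < 2 ^ Bb) →
    (∀ n, n < 2 ^ D → w n * (y n * y n) ≤ MA ∧ w n * (2 * (y n * z n)) ≤ MA ∧ w n * (z n * z n) ≤ MA) →
    LP Bo Bb (Bo * 2 ^ D) (Bo * (2 ^ D - 1)) D ph q w (pk Bb (2 ^ D) y) (pk Bb (2 ^ D) z) =
      ∑ n ∈ range (2 ^ D), (w n * (y n * y n) * cf (Ps q ^ 43) n +
        w n * (z n * z n) * cf (G2 43 (Ps q) (Ps1 ph q) (Ps2 ph q)) n) ∧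
    LM Bo Bb (Bo * 2 ^ D) (Bo * (2 ^ D - 1)) D ph q w (pk Bb (2 ^ D) y) (pk Bb (2 ^ D) z) =
      ∑ n ∈ range (2 ^ D), w n * (2 * (y n * z n)) * cf (G1 43 (Ps q) (Ps1 ph q)) n

/-- Task DN: the same for the norm of the sieve weight -/
def S_NORM : Prop := ∀ (Bo D A0 A1 A2 MA : ℕ) (ph q h0 h1 : ℕ → ℕ),
    nrm (2 ^ D) (Ps q) ≤ A0 → nrm (2 ^ D) (Ps1 ph q) ≤ A1 → nrm (2 ^ D) (Ps2 ph q) ≤ A2 → 1 ≤ A0 → 1 ≤ MA →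
    A1 ^ 2 < 2 ^ Bo →
    (A0 ^ 44 + 44 * (A1 * A0 ^ 43) + 44 * (A2 * A0 ^ 43) + 1892 * (A1 ^ 2 * A0 ^ 42)) * (2 ^ D * MA) < 2 ^ Bo →
    (∀ n, n < 2 ^ D → h0 n * h0 n ≤ MA ∧ 2 * (h0 n * h1 n) ≤ MA ∧ h1 n * h1 n ≤ MA) →
    NP Bo (Bo * 2 ^ D) D ph q h0 h1 (Bo * (2 ^ D - 1)) =
      ∑ n ∈ range (2 ^ D), (h0 n * h0 n * cf (Ps q ^ 44) n + h1 n * h1 n * cf (G2 44 (Ps q) (Ps1 ph q) (Ps2 ph q)) n) ∧
    NM Bo (Bo * 2 ^ D) D ph q h0 h1 (Bo * (2 ^ D - 1)) =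
      ∑ n ∈ range (2 ^ D), 2 * (h0 n * h1 n) * cf (G1 44 (Ps q) (Ps1 ph q)) n

/-- Task DC: the correlations (copy `Y141/ZC/KAb.lean`: `corr_spec`) -/
def S_CORR : Prop := ∀ (Bb D Gm Hm Pm : ℕ) (g ph h0 h1 : ℕ → ℕ), (∀ n, n < 2 ^ D → g n ≤ Gm) → (∀ n, n < 2 ^ D → ph n ≤ Pm) →
    (∀ n, n < 2 ^ D → h0 n ≤ Hm) → (∀ n, n < 2 ^ D → h1 n ≤ Hm) → 1 ≤ Pm → 2 ^ D * (Gm * Pm) * Hm < 2 ^ Bb →
    AP Bb D g h0 (2 ^ D) (Bb * (2 ^ D - 1)) = pk Bb (2 ^ D) (ap (2 ^ D) g h0) ∧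
    AM Bb D g ph h1 (2 ^ D) (Bb * (2 ^ D - 1)) = pk Bb (2 ^ D) (am (2 ^ D) g ph h1) ∧
    BB Bb D g h1 (2 ^ D) (Bb * (2 ^ D - 1)) = pk Bb (2 ^ D) (bb (2 ^ D) g h1) ∧
    (∀ n, n < 2 ^ D → ap (2 ^ D) g h0 n < 2 ^ Bb ∧ am (2 ^ D) g ph h1 n < 2 ^ Bb ∧ bb (2 ^ D) g h1 n < 2 ^ Bb) ∧
    ((∀ n, n < 2 ^ D → am (2 ^ D) g ph h1 n ≤ ap (2 ^ D) g h0 n) →
      YY Bb D g ph h0 h1 (2 ^ D) (Bb * (2 ^ D - 1)) =
        pk Bb (2 ^ D) (fun n => ap (2 ^ D) g h0 n - am (2 ^ D) g ph h1 n))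

/-- Task DC, second part: comparison of the digits of two packed arrays -/
def S_GE : Prop := ∀ (Bb D : ℕ) (u v : ℕ → ℕ), (∀ n, n < 2 ^ D → u n < 2 ^ Bb) → (∀ n, n < 2 ^ D → v n < 2 ^ Bb) →
    genr 0 Bb (fun _ a b => cond (Nat.ble b a) 0 1) D 0 (pk Bb (2 ^ D) u) (pk Bb (2 ^ D) v) = 0 →
    ∀ n, n < 2 ^ D → v n ≤ u n

/-- Task DC, third part: the arrays; `genr` is reversed -/
def S_ARR : Prop := (∀ (Bo D : ℕ) (f : ℕ → ℕ), gen Bo f D 0 = pk Bo (2 ^ D) f) ∧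
  (∀ (Bo Bb D : ℕ) (f : ℕ → ℕ → ℕ → ℕ) (u v : ℕ → ℕ), (∀ n, n < 2 ^ D → u n < 2 ^ Bb) → (∀ n, n < 2 ^ D → v n < 2 ^ Bb) →
    genr Bo Bb f D 0 (pk Bb (2 ^ D) u) (pk Bb (2 ^ D) v) =
      pk Bo (2 ^ D) (fun i => f (2 ^ D - 1 - i) (u (2 ^ D - 1 - i)) (v (2 ^ D - 1 - i))))

end Pool.Agent.H529.D
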