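import Mathlib
import Pool.Agent.H529.D.GDefs
import Pool.Graph.R_seed8.H95R2.BG.K3

/-! Task DB (job 7641 of helper529): the box sums, generic version of `Pool.Graph.R_seed8.Y333.ZC.KB`. -/

set_option autoImplicit false

open Finset

namespace Pool.Agent.H529.D.Box

open Pool.Agent.H95R2.BG Pool.Agent.Y826.Z Pool.Agent.H529.D
open Pool.Agent.H95R2.BG.Cert (cf G1 G2 box_sum0 box_sum1 box_sum2)

theorem kb_rad {K : ℕ} (c : Fin K → ℕ) : rad c = ∑ j, c j + K := by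
  unfold rad
  rw [sum_add_distrib]
  simp

theorem kb_supp (K NN : ℕ) (g ph h0 h1 : ℕ → ℕ) (c : Fin (K + 1) → ℕ) (h : FF NN g ph h0 h1 c ≠ 0) :
    rad c ≤ NN + K := by
  unfold FF at h
  split_ifs at h with h1
  · rw [kb_rad]; omega
  · exact absurd rfl h

/-- the three box sums together, for a general weight -/
theorem kb_all (K NN : ℕ) (hK : 2 ≤ K) (ph q : ℕ → ℕ) (A0 A1 A2 : ℕ → ℝ) :
    ∑ c ∈ Box K NN, (if ∑ j, c j < NN then
      (∏ j, (q (c j) : ℝ)) * (A0 (∑ j, c j) + A1 (∑ j, c j) * ∑ j, (ph (c j) : ℝ) +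
        A2 (∑ j, c j) * (∑ j, (ph (c j) : ℝ)) ^ 2) else 0) =
    ∑ n ∈ range NN, (A0 n * (cf (Ps q ^ K) n : ℝ) + A1 n * (cf (G1 K (Ps q) (Ps1 ph q)) n : ℝ) +
      A2 n * (cf (G2 K (Ps q) (Ps1 ph q) (Ps2 ph q)) n : ℝ)) := by
  have e0 := box_sum0 K NN q A0
  have e1 := box_sum1 K NN (by omega) q ph A1
  have e2 := box_sum2 K NN hK q ph A2
  rw [sum_add_distrib, sum_add_distrib]
  have q0 : (PowerSeries.mk q) = Ps q := rfl
  have q1 : (PowerSeries.mk fun i => q i * ph i) = Ps1 ph q := rfl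
  have q2 : (PowerSeries.mk fun i => q i * (ph i * ph i)) = Ps2 ph q := rfl
  rw [q0] at e0
  rw [q0, q1] at e1
  rw [q0, q1, q2] at e2
  rw [← e0, ← e1, ← e2, ← sum_add_distrib, ← sum_add_distrib]
  refine sum_congr rfl fun c _ => ?_
  split_ifs
  · ring
  · simp

theorem prod_q0 {K : ℕ} (g : ℕ → ℕ) (c : Fin K → ℕ) :
    ∏ j, (((fun i => g i * g i) (c j) : ℕ) : ℝ) = (∏ j, (g (c j) : ℝ)) ^ 2 := by
  rw [← prod_pow]
  refine prod_congr rfl fun j _ => ?_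
  push_cast
  ring

theorem kb_sum_F2 (K NN : ℕ) (hK : 2 ≤ K) (g ph h0 h1 : ℕ → ℕ) :
    ∑ c ∈ Box (K + 1) NN, FF NN g ph h0 h1 c ^ 2 =
    ∑ n ∈ range NN, ((h0 n : ℝ) ^ 2 * (cf (Ps (fun i => g i * g i) ^ (K + 1)) n : ℝ) +
      (h1 n : ℝ) ^ 2 * (cf (G2 (K + 1) (Ps (fun i => g i * g i)) (Ps1 ph (fun i => g i * g i))
        (Ps2 ph (fun i => g i * g i))) n : ℝ) -
      2 * ((h0 n : ℝ) * h1 n) * (cf (G1 (K + 1) (Ps (fun i => g i * g i))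
        (Ps1 ph (fun i => g i * g i))) n : ℝ)) := by
  have key := kb_all (K + 1) NN (by omega) ph (fun i => g i * g i) (fun n => (h0 n : ℝ) ^ 2)
    (fun n => - 2 * ((h0 n : ℝ) * h1 n)) (fun n => (h1 n : ℝ) ^ 2)
  have e1 : ∑ c ∈ Box (K + 1) NN, FF NN g ph h0 h1 c ^ 2 = ∑ c ∈ Box (K + 1) NN, (if ∑ j, c j < NN then
      (∏ j, (((fun i => g i * g i) (c j) : ℕ) : ℝ)) * ((h0 (∑ j, c j) : ℝ) ^ 2 +
        (- 2 * ((h0 (∑ j, c j) : ℝ) * h1 (∑ j, c j))) * ∑ j, (ph (c j) : ℝ) +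
        (h1 (∑ j, c j) : ℝ) ^ 2 * (∑ j, (ph (c j) : ℝ)) ^ 2) else 0) := by
    refine sum_congr rfl fun c _ => ?_
    rw [prod_q0]
    unfold FF
    split_ifs
    · ring
    · norm_num
  rw [e1]
  refine key.trans ?_
  refine sum_congr rfl fun n _ => ?_
  ring

theorem kb_FF_insert (K NN : ℕ) (g ph h0 h1 : ℕ → ℕ) (i : Fin (K + 1)) (t : ℕ) (c : Fin K → ℕ) :
    FF NN g ph h0 h1 (Fin.insertNth (α := fun _ => ℕ) i t c) = if t + ∑ j, c j < NN then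
      (g t : ℝ) * (∏ j, (g (c j) : ℝ)) * ((h0 (t + ∑ j, c j) : ℝ) -
        h1 (t + ∑ j, c j) * ((ph t : ℝ) + ∑ j, (ph (c j) : ℝ))) else 0 := by
  have e1 : ∑ j, (Fin.insertNth (α := fun _ => ℕ) i t c) j = t + ∑ j, c j := by
    rw [Fin.sum_univ_succAbove _ i]
    simp
  have e2 : ∏ j, (g ((Fin.insertNth (α := fun _ => ℕ) i t c) j) : ℝ) =
      (g t : ℝ) * ∏ j, (g (c j) : ℝ) := by
    rw [Fin.prod_univ_succAbove _ i]
    simp
  have e3 : ∑ j, (ph ((Fin.insertNth (α := fun _ => ℕ) i t c) j) : ℝ) =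
      (ph t : ℝ) + ∑ j, (ph (c j) : ℝ) := by
    rw [Fin.sum_univ_succAbove _ i]
    simp
  unfold FF
  rw [e1, e2, e3]

theorem kb_UU (K NN : ℕ) (g ph h0 h1 : ℕ → ℕ) (i : Fin (K + 1)) (c : Fin K → ℕ)
    (hc : ∑ j, c j < NN) : UU NN (FF NN g ph h0 h1) i c =
    (∏ j, (g (c j) : ℝ)) * xi NN g ph h0 h1 c := by
  unfold UU xi
  set n := ∑ j, c j with hn
  have e1 : ∀ t ∈ range NN, FF NN g ph h0 h1 (Fin.insertNth (α := fun _ => ℕ) i t c) =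
      if t ∈ range (NN - n) then
        (g t : ℝ) * (∏ j, (g (c j) : ℝ)) * ((h0 (n + t) : ℝ) -
        h1 (n + t) * ((ph t : ℝ) + ∑ j, (ph (c j) : ℝ))) else 0 := by
    intro t _
    rw [kb_FF_insert, ← hn, add_comm t n]
    by_cases h : n + t < NN
    · rw [if_pos h, if_pos (by rw [mem_range]; omega)]
    · rw [if_neg h, if_neg (by rw [mem_range]; omega)]
  rw [sum_congr rfl e1, ← sum_filter]
  have e2 : (range NN).filter (fun t => t ∈ range (NN - n)) = range (NN - n) := by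
    ext t; simp only [mem_filter, mem_range]; omega
  rw [e2]
  have e : ∀ t ∈ range (NN - n), (g t : ℝ) * (∏ j, (g (c j) : ℝ)) * ((h0 (n + t) : ℝ) -
      h1 (n + t) * ((ph t : ℝ) + ∑ j, (ph (c j) : ℝ))) =
      (∏ j, (g (c j) : ℝ)) * ((g t : ℝ) * h0 (n + t) - (g t : ℝ) * ph t * h1 (n + t) -
        (g t : ℝ) * h1 (n + t) * ∑ j, (ph (c j) : ℝ)) := fun t _ => by ring
  rw [sum_congr rfl e, ← mul_sum, sum_sub_distrib, sum_sub_distrib, ← sum_mul]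
  unfold ap am bb
  push_cast
  rfl

theorem kb_UU_zero (K NN : ℕ) (g ph h0 h1 : ℕ → ℕ) (i : Fin (K + 1)) (c : Fin K → ℕ)
    (hc : NN ≤ ∑ j, c j) : UU NN (FF NN g ph h0 h1) i c = 0 := by
  unfold UU
  refine sum_eq_zero fun t _ => ?_
  rw [kb_FF_insert, if_neg (by omega)]

theorem kb_AA0 (K NN : ℕ) (g ph h0 h1 : ℕ → ℕ) (i : Fin (K + 1)) (c : Fin K → ℕ)
    (hU : UU NN (FF NN g ph h0 h1) i c ≠ 0) : ∑ j, c j < NN ∧ ∀ j, g (c j) ≠ 0 := by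
  have e1 : ∑ j, c j < NN := by
    by_contra h
    exact hU (kb_UU_zero K NN g ph h0 h1 i c (not_lt.1 h))
  constructor
  · exact e1
  · intro j hj
    apply hU
    rw [kb_UU K NN g ph h0 h1 i c e1, prod_eq_zero (mem_univ j), zero_mul]
    rw [hj, Nat.cast_zero]

theorem kb_XQ (K NN : ℕ) (hK : 2 ≤ K) (g ph h0 h1 : ℕ → ℕ) (q : ℕ → ℕ) (w : ℕ → ℝ) :
    ∑ c ∈ Box K NN, (if ∑ j, c j < NN then
      w (∑ j, c j) * ((∏ j, (q (c j) : ℝ)) * xi NN g ph h0 h1 c ^ 2) else 0) =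
      ∑ n ∈ range NN, w n * XQ NN g ph h0 h1 K q n := by
  have key := kb_all K NN hK ph q (fun n => w n * ((ap NN g h0 n : ℝ) - am NN g ph h1 n) ^ 2)
    (fun n => w n * (- (2 * ((ap NN g h0 n : ℝ) - am NN g ph h1 n) * bb NN g h1 n)))
    (fun n => w n * (bb NN g h1 n : ℝ) ^ 2)
  have e1 : ∑ c ∈ Box K NN, (if ∑ j, c j < NN then
      w (∑ j, c j) * ((∏ j, (q (c j) : ℝ)) * xi NN g ph h0 h1 c ^ 2) else 0) =
      ∑ c ∈ Box K NN, (if ∑ j, c j < NN then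
      (∏ j, (q (c j) : ℝ)) *
        (w (∑ j, c j) * ((ap NN g h0 (∑ j, c j) : ℝ) - am NN g ph h1 (∑ j, c j)) ^ 2 +
        (w (∑ j, c j) * (- (2 * ((ap NN g h0 (∑ j, c j) : ℝ) - am NN g ph h1 (∑ j, c j)) *
          bb NN g h1 (∑ j, c j)))) *
          ∑ j, (ph (c j) : ℝ) +
        (w (∑ j, c j) * (bb NN g h1 (∑ j, c j) : ℝ) ^ 2) * (∑ j, (ph (c j) : ℝ)) ^ 2) else 0) := by
    refine sum_congr rfl fun c _ => ?_
    unfold xi
    split_ifs with h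
    · ring
    · rfl
  rw [e1]
  refine key.trans ?_
  refine sum_congr rfl fun n _ => ?_
  unfold XQ
  ring

theorem box : Pool.Agent.H529.D.S_BOX := by
  intro K NN g ph h0 h1 hK
  exact ⟨kb_supp K NN g ph h0 h1, kb_sum_F2 K NN hK g ph h0 h1, kb_AA0 K NN g ph h0 h1,
    kb_UU K NN g ph h0 h1, kb_XQ K NN hK g ph h0 h1⟩

end Pool.Agent.H529.D.Box
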