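import Mathlib
import Pool.Graph.R_seed8.H95R2.BG.K1
import Pool.Graph.R_seed8.H95R2.BG.K2
import Pool.Agent.H529.D.GDefs

/-!
# The norm of the sieve weight in packed form (task DN of helper529; helper800)
-/

set_option autoImplicit false

open Finset

namespace Pool.Agent.H529.D.Norm

open Pool.Agent.H529.D
open Pool.Agent.H95R2.BG.Cert (pk cf pkS nrm G1 G2 pk_succ_pow pk_one pk_lt pkS_mul pkS_add
  pkS_natCast_mul nrm_mul nrm_add nrm_natCast_mul nrm_pow coeff_le_nrm K2_cf_mul)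

theorem pk_congr (B n : ℕ) (u v : ℕ → ℕ) (h : ∀ i < n, u i = v i) : pk B n u = pk B n v := by
  unfold pk
  exact Finset.sum_congr rfl fun i hi => by rw [h i (Finset.mem_range.1 hi)]

/-- generated arrays -/
theorem gen_eq (Bo : ℕ) (f : ℕ → ℕ) (D lo : ℕ) :
    gen Bo f D lo = pk Bo (2 ^ D) (fun i => f (lo + i)) := by
  induction D generalizing lo with
  | zero =>
    rw [pk_one]
    rfl
  | succ k ih =>
    have h1 : gen Bo f (k + 1) lo =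
        gen Bo f k lo + Nat.shiftLeft (gen Bo f k (lo + 2 ^ k)) (Bo * 2 ^ k) := rfl
    rw [h1, ih, ih, pk_succ_pow]
    have e1 : ∀ a m : ℕ, Nat.shiftLeft a m = a * 2 ^ m := fun a m => Nat.shiftLeft_eq a m
    rw [e1]
    congr 2
    apply pk_congr
    intro i _
    rw [add_assoc]

/-- reversed arrays -/
theorem genr_eq (Bo Bb : ℕ) (F : ℕ → ℕ) (D lo y z : ℕ) :
    genr Bo Bb (fun n _ _ => F n) D lo y z = pk Bo (2 ^ D) (fun i => F (lo + (2 ^ D - 1 - i))) := by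
  induction D generalizing lo y z with
  | zero =>
    rw [pk_one]
    rfl
  | succ k ih =>
    have h1 : genr Bo Bb (fun n _ _ => F n) (k + 1) lo y z =
        Nat.shiftLeft (genr Bo Bb (fun n _ _ => F n) k lo
          (Nat.land y (Nat.sub (Nat.shiftLeft 1 (Nat.mul Bb (Nat.pow 2 k))) 1))
          (Nat.land z (Nat.sub (Nat.shiftLeft 1 (Nat.mul Bb (Nat.pow 2 k))) 1))) (Bo * 2 ^ k) +
        genr Bo Bb (fun n _ _ => F n) k (lo + 2 ^ k) (Nat.shiftRight y (Nat.mul Bb (Nat.pow 2 k)))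
          (Nat.shiftRight z (Nat.mul Bb (Nat.pow 2 k))) := rfl
    rw [h1, ih, ih, pk_succ_pow, add_comm]
    have e1 : ∀ a m : ℕ, Nat.shiftLeft a m = a * 2 ^ m := fun a m => Nat.shiftLeft_eq a m
    have e2 : 2 ^ (k + 1) = 2 ^ k + 2 ^ k := by rw [pow_succ, mul_two]
    rw [e1]
    have e3 : 0 < 2 ^ k := by positivity
    congr 1
    · apply pk_congr
      intro i hi
      congr 1
      omega
    · congr 1
      apply pk_congr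
      intro i hi
      congr 1
      omega

/-- truncated products -/
theorem mu_eq (B n X Y : ℕ) (f h : PowerSeries ℕ) (hX : X = pkS B n f) (hY : Y = pkS B n h)
    (hb : nrm n f * nrm n h < 2 ^ B) : mu (B * n) X Y = pkS B n (f * h) := by
  subst hX hY
  exact pkS_mul B n f h hb

/-- the top block -/
theorem pk_top (B n : ℕ) (u : ℕ → ℕ) (h : ∀ i < n, u i < 2 ^ B) :
    Nat.shiftRight (pk B (n + 1) u) (B * n) = u n := by
  have e1 : ∀ x : ℕ, Nat.shiftRight x (B * n) = x / 2 ^ (B * n) := fun x =>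
    Nat.shiftRight_eq_div_pow x (B * n)
  have h2 : pk B (n + 1) u = pk B n u + u n * 2 ^ (B * n) := by
    unfold pk
    rw [Finset.sum_range_succ]
  rw [e1, h2, Nat.add_mul_div_right _ _ (Nat.two_pow_pos _), Nat.div_eq_of_lt (pk_lt B n u h),
    zero_add]

/-- inner products -/
theorem ip_eq (B N X Y : ℕ) (hN : 0 < N) (f : PowerSeries ℕ) (W : ℕ → ℕ) (hX : X = pkS B N f)
    (hY : Y = pk B N (fun i => W (N - 1 - i))) (M : ℕ) (hW : ∀ n, n < N → W n ≤ M)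
    (hb : nrm N f * (N * M) < 2 ^ B) :
    ip (B * N) (B * (N - 1)) X Y = ∑ n ∈ range N, W n * cf f n := by
  obtain ⟨h, hh⟩ : ∃ h : PowerSeries ℕ, h = PowerSeries.mk (fun i => W (N - 1 - i)) := ⟨_, rfl⟩
  have hcf : cf h = fun i => W (N - 1 - i) := by
    funext i
    unfold cf
    rw [hh, PowerSeries.coeff_mk]
  have hY' : Y = pkS B N h := by
    unfold pkS
    rw [hcf, hY]
  have hnh : nrm N h ≤ N * M := by
    unfold nrm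
    rw [hcf]
    calc ∑ i ∈ range N, W (N - 1 - i) ≤ ∑ _i ∈ range N, M :=
          Finset.sum_le_sum fun i _ => hW _ (by omega)
      _ = N * M := by rw [Finset.sum_const, Finset.card_range, smul_eq_mul]
  have hb' : nrm N f * nrm N h < 2 ^ B := (Nat.mul_le_mul_left _ hnh).trans_lt hb
  unfold ip
  rw [mu_eq B N X Y f h hX hY' hb']
  unfold pkS
  obtain ⟨m, rfl⟩ : ∃ m, N = m + 1 := ⟨N - 1, by omega⟩
  rw [Nat.add_sub_cancel, pk_top]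
  · rw [K2_cf_mul]
    refine Finset.sum_congr rfl fun k hk => ?_
    have hk' := Finset.mem_range.1 hk
    rw [hcf, mul_comm]
    simp only
    congr 2
    omega
  · intro i hi
    exact ((coeff_le_nrm (m + 1) i (by omega) _).trans (nrm_mul _ _ _)).trans_lt hb'

section pow

variable {Bo D A0 A1 A2 : ℕ} {ph q : ℕ → ℕ}

/-- the hypotheses for the products -/
structure Hy (Bo D A0 A1 A2 : ℕ) (ph q : ℕ → ℕ) : Prop where
  n0 : nrm (2 ^ D) (Ps q) ≤ A0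
  n1 : nrm (2 ^ D) (Ps1 ph q) ≤ A1
  n2 : nrm (2 ^ D) (Ps2 ph q) ≤ A2
  o : 1 ≤ A0
  s : A1 ^ 2 < 2 ^ Bo
  b0 : A0 ^ 44 < 2 ^ Bo
  b1 : A1 * A0 ^ 43 < 2 ^ Bo
  b2 : A2 * A0 ^ 43 < 2 ^ Bo
  b3 : A1 ^ 2 * A0 ^ 42 < 2 ^ Bo

variable (H : Hy Bo D A0 A1 A2 ph q)

theorem cf0 (q : ℕ → ℕ) : cf (Ps q) = q := by
  funext i
  unfold cf Ps
  rw [PowerSeries.coeff_mk]

theorem cf1 (ph q : ℕ → ℕ) : cf (Ps1 ph q) = fun i => q i * ph i := by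
  funext i
  unfold cf Ps1
  rw [PowerSeries.coeff_mk]

theorem cf2 (ph q : ℕ → ℕ) : cf (Ps2 ph q) = fun i => q i * (ph i * ph i) := by
  funext i
  unfold cf Ps2
  rw [PowerSeries.coeff_mk]

theorem P1_eq (Bo D : ℕ) (q : ℕ → ℕ) : P1 Bo D q = pkS Bo (2 ^ D) (Ps q ^ 1) := by
  unfold P1 pkS
  rw [gen_eq, pow_one, cf0]
  exact pk_congr _ _ _ _ fun i _ => by rw [zero_add]

theorem Q1_eq (Bo D : ℕ) (ph q : ℕ → ℕ) : Q1 Bo D ph q = pkS Bo (2 ^ D) (Ps1 ph q) := by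
  unfold Q1 pkS
  rw [gen_eq, cf1]
  exact pk_congr _ _ _ _ fun i _ => by rw [zero_add]; rfl

theorem Q2_eq (Bo D : ℕ) (ph q : ℕ → ℕ) : Q2 Bo D ph q = pkS Bo (2 ^ D) (Ps2 ph q) := by
  unfold Q2 pkS
  rw [gen_eq, cf2]
  exact pk_congr _ _ _ _ fun i _ => by rw [zero_add]; rfl

include H

theorem nrm_P (a : ℕ) : nrm (2 ^ D) (Ps q ^ a) ≤ A0 ^ a :=
  (nrm_pow _ a (by positivity) (Ps q)).trans (Nat.pow_le_pow_left H.n0 a)

theorem mu_pow (X Y a b c : ℕ) (hX : X = pkS Bo (2 ^ D) (Ps q ^ a))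
    (hY : Y = pkS Bo (2 ^ D) (Ps q ^ b)) (hc : a + b = c) (h44 : c ≤ 44) :
    mu (Bo * 2 ^ D) X Y = pkS Bo (2 ^ D) (Ps q ^ c) := by
  rw [← hc, pow_add]
  refine mu_eq Bo (2 ^ D) X Y _ _ hX hY ?_
  refine (Nat.mul_le_mul (nrm_P H a) (nrm_P H b)).trans_lt ?_
  rw [← pow_add, hc]
  exact (Nat.pow_le_pow_right H.o h44).trans_lt H.b0

theorem P2_eq : P2 Bo (Bo * 2 ^ D) D q = pkS Bo (2 ^ D) (Ps q ^ 2) :=
  mu_pow H _ _ 1 1 2 (P1_eq _ _ _) (P1_eq _ _ _) rfl (by norm_num)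

theorem P4_eq : P4 Bo (Bo * 2 ^ D) D q = pkS Bo (2 ^ D) (Ps q ^ 4) :=
  mu_pow H _ _ 2 2 4 (P2_eq H) (P2_eq H) rfl (by norm_num)

theorem P5_eq : P5 Bo (Bo * 2 ^ D) D q = pkS Bo (2 ^ D) (Ps q ^ 5) :=
  mu_pow H _ _ 4 1 5 (P4_eq H) (P1_eq _ _ _) rfl (by norm_num)

theorem P10_eq : P10 Bo (Bo * 2 ^ D) D q = pkS Bo (2 ^ D) (Ps q ^ 10) :=
  mu_pow H _ _ 5 5 10 (P5_eq H) (P5_eq H) rfl (by norm_num)

theorem P20_eq : P20 Bo (Bo * 2 ^ D) D q = pkS Bo (2 ^ D) (Ps q ^ 20) :=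
  mu_pow H _ _ 10 10 20 (P10_eq H) (P10_eq H) rfl (by norm_num)

theorem P40_eq : P40 Bo (Bo * 2 ^ D) D q = pkS Bo (2 ^ D) (Ps q ^ 40) :=
  mu_pow H _ _ 20 20 40 (P20_eq H) (P20_eq H) rfl (by norm_num)

theorem P41_eq : P41 Bo (Bo * 2 ^ D) D q = pkS Bo (2 ^ D) (Ps q ^ 41) :=
  mu_pow H _ _ 40 1 41 (P40_eq H) (P1_eq _ _ _) rfl (by norm_num)

theorem P42_eq : P42 Bo (Bo * 2 ^ D) D q = pkS Bo (2 ^ D) (Ps q ^ 42) :=
  mu_pow H _ _ 41 1 42 (P41_eq H) (P1_eq _ _ _) rfl (by norm_num)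

theorem P43_eq : P43 Bo (Bo * 2 ^ D) D q = pkS Bo (2 ^ D) (Ps q ^ 43) :=
  mu_pow H _ _ 42 1 43 (P42_eq H) (P1_eq _ _ _) rfl (by norm_num)

theorem P44_eq : P44 Bo (Bo * 2 ^ D) D q = pkS Bo (2 ^ D) (Ps q ^ 44) :=
  mu_pow H _ _ 43 1 44 (P43_eq H) (P1_eq _ _ _) rfl (by norm_num)

theorem nrm_11 : nrm (2 ^ D) (Ps1 ph q * Ps1 ph q) ≤ A1 ^ 2 := by
  rw [pow_two]
  exact (nrm_mul _ _ _).trans (Nat.mul_le_mul H.n1 H.n1)

theorem Q11_eq : Q11 Bo (Bo * 2 ^ D) D ph q = pkS Bo (2 ^ D) (Ps1 ph q * Ps1 ph q) := by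
  refine mu_eq Bo (2 ^ D) _ _ _ _ (Q1_eq _ _ _ _) (Q1_eq _ _ _ _) ?_
  refine (Nat.mul_le_mul H.n1 H.n1).trans_lt ?_
  rw [← pow_two]
  exact H.s

theorem F1_eq : F1 Bo (Bo * 2 ^ D) D ph q = pkS Bo (2 ^ D) (G1 44 (Ps q) (Ps1 ph q)) := by
  have h := mu_eq Bo (2 ^ D) _ _ (Ps1 ph q) (Ps q ^ 43) (Q1_eq Bo D ph q) (P43_eq H)
    ((Nat.mul_le_mul H.n1 (nrm_P H 43)).trans_lt H.b1)
  have h' := pkS_natCast_mul Bo (2 ^ D) 44 (Ps1 ph q * Ps q ^ 43)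
  unfold F1 G1
  rw [h]
  exact h'.symm

theorem F2_eq : F2 Bo (Bo * 2 ^ D) D ph q =
    pkS Bo (2 ^ D) (G2 44 (Ps q) (Ps1 ph q) (Ps2 ph q)) := by
  have h1 := mu_eq Bo (2 ^ D) _ _ (Ps2 ph q) (Ps q ^ 43) (Q2_eq Bo D ph q) (P43_eq H)
    ((Nat.mul_le_mul H.n2 (nrm_P H 43)).trans_lt H.b2)
  have h2 := mu_eq Bo (2 ^ D) _ _ (Ps1 ph q * Ps1 ph q) (Ps q ^ 42) (Q11_eq H) (P42_eq H)
    ((Nat.mul_le_mul (nrm_11 H) (nrm_P H 42)).trans_lt H.b3)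
  have h3 := pkS_natCast_mul Bo (2 ^ D) 44 (Ps2 ph q * Ps q ^ 43)
  have h4 := pkS_natCast_mul Bo (2 ^ D) 1892 (Ps1 ph q * Ps1 ph q * Ps q ^ 42)
  unfold F2 G2
  rw [h1, h2, pkS_add]
  exact congrArg₂ (· + ·) h3.symm h4.symm

end pow

theorem norm44 : Pool.Agent.H529.D.S_NORM := by
  intro Bo D A0 A1 A2 MA ph q h0 h1 n0 n1 n2 hA0 hMA hs hb hd
  obtain ⟨a, ha⟩ : ∃ a, a = A0 ^ 44 := ⟨_, rfl⟩
  obtain ⟨b, hb'⟩ : ∃ b, b = A1 * A0 ^ 43 := ⟨_, rfl⟩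
  obtain ⟨c, hc⟩ : ∃ c, c = A2 * A0 ^ 43 := ⟨_, rfl⟩
  obtain ⟨d, hd'⟩ : ∃ d, d = A1 ^ 2 * A0 ^ 42 := ⟨_, rfl⟩
  obtain ⟨N, hN⟩ : ∃ N, N = 2 ^ D := ⟨_, rfl⟩
  have hN0 : 0 < N := by rw [hN]; positivity
  rw [← ha, ← hb', ← hc, ← hd', ← hN] at hb
  have hNM : 1 ≤ N * MA := Nat.mul_pos hN0 hMA
  have hS : a + 44 * b + 44 * c + 1892 * d < 2 ^ Bo :=
    (Nat.le_mul_of_pos_right _ hNM).trans_lt hb
  have H : Hy Bo D A0 A1 A2 ph q :=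
    ⟨n0, n1, n2, hA0, hs, by rw [← ha]; omega, by rw [← hb']; omega, by rw [← hc]; omega,
      by rw [← hd']; omega⟩
  have r0 : ∀ F : ℕ → ℕ, genr Bo 1 (fun n _ _ => F n) D 0 0 0 =
      pk Bo (2 ^ D) (fun i => F (2 ^ D - 1 - i)) := by
    intro F
    rw [genr_eq]
    exact pk_congr _ _ _ _ fun i _ => by rw [zero_add]
  have b44 : nrm (2 ^ D) (Ps q ^ 44) * (2 ^ D * MA) < 2 ^ Bo := by
    have e1 : nrm (2 ^ D) (Ps q ^ 44) ≤ a := by rw [ha]; exact nrm_P H 44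
    rw [← hN] at e1 ⊢
    refine (Nat.mul_le_mul_right _ e1).trans_lt (lt_of_le_of_lt (Nat.mul_le_mul_right _ ?_) hb)
    omega
  have bG2 : nrm (2 ^ D) (G2 44 (Ps q) (Ps1 ph q) (Ps2 ph q)) * (2 ^ D * MA) < 2 ^ Bo := by
    have e1 : nrm (2 ^ D) (G2 44 (Ps q) (Ps1 ph q) (Ps2 ph q)) ≤ 44 * c + 1892 * d := by
      unfold G2
      rw [nrm_add, nrm_natCast_mul, nrm_natCast_mul]
      refine Nat.add_le_add (Nat.mul_le_mul_left _ ?_) (Nat.mul_le_mul le_rfl ?_)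
      · rw [hc]
        exact (nrm_mul _ _ _).trans (Nat.mul_le_mul n2 (nrm_P H 43))
      · rw [hd']
        exact (nrm_mul _ _ _).trans (Nat.mul_le_mul (nrm_11 H) (nrm_P H 42))
    rw [← hN] at e1 ⊢
    refine (Nat.mul_le_mul_right _ e1).trans_lt (lt_of_le_of_lt (Nat.mul_le_mul_right _ ?_) hb)
    omega
  have bG1 : nrm (2 ^ D) (G1 44 (Ps q) (Ps1 ph q)) * (2 ^ D * MA) < 2 ^ Bo := by
    have e1 : nrm (2 ^ D) (G1 44 (Ps q) (Ps1 ph q)) ≤ 44 * b := by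
      unfold G1
      rw [nrm_natCast_mul]
      refine Nat.mul_le_mul_left _ ?_
      rw [hb']
      exact (nrm_mul _ _ _).trans (Nat.mul_le_mul n1 (nrm_P H 43))
    rw [← hN] at e1 ⊢
    refine (Nat.mul_le_mul_right _ e1).trans_lt (lt_of_le_of_lt (Nat.mul_le_mul_right _ ?_) hb)
    omega
  have hD0 : 0 < 2 ^ D := by positivity
  constructor
  · unfold NP
    have e1 := ip_eq Bo (2 ^ D) _ _ hD0 (Ps q ^ 44) (fun n => h0 n * h0 n) (P44_eq H)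
      (r0 (fun n => h0 n * h0 n)) MA (fun n hn => (hd n hn).1) b44
    have e2 := ip_eq Bo (2 ^ D) _ _ hD0 (G2 44 (Ps q) (Ps1 ph q) (Ps2 ph q))
      (fun n => h1 n * h1 n) (F2_eq H) (r0 (fun n => h1 n * h1 n)) MA (fun n hn => (hd n hn).2.2) bG2
    rw [Finset.sum_add_distrib]
    exact congrArg₂ (· + ·) e1 e2
  · unfold NM
    exact ip_eq Bo (2 ^ D) _ _ hD0 (G1 44 (Ps q) (Ps1 ph q)) (fun n => 2 * (h0 n * h1 n)) (F1_eq H)
      (r0 (fun n => 2 * (h0 n * h1 n))) MA (fun n hn => (hd n hn).2.1) bG1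

end Pool.Agent.H529.D.Norm
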