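import Mathlib
import Pool.Agent.H529.D.GDefs
import Pool.Graph.R_seed8.H95R2.BG.K1
import Pool.Graph.R_seed8.H95R2.BG.K2

/-! `DHL[44,2]`, task DP: meaning of the packed sums (helper199). -/

set_option autoImplicit false

open Finset

namespace Pool.Agent.H529.D.Pack

open Pool.Agent.H529.D
open Pool.Agent.H95R2.BG.Cert (pk cf pkS nrm G1 G2 pk_succ_pow pk_land pk_shiftRight pk_one pk_lt
  pkS_mul pkS_add pkS_natCast_mul nrm_mul nrm_add nrm_natCast_mul nrm_pow coeff_le_nrm K2_cf_mul)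

/-! ### The traversals -/

theorem pk_congr (B n : ℕ) (u v : ℕ → ℕ) (h : ∀ i, i < n → u i = v i) : pk B n u = pk B n v := by
  unfold pk
  exact Finset.sum_congr rfl fun i hi => by rw [h i (Finset.mem_range.1 hi)]

theorem gen_zero (Bo : ℕ) (f : ℕ → ℕ) (lo : ℕ) : gen Bo f 0 lo = f lo := rfl

theorem gen_succ (Bo : ℕ) (f : ℕ → ℕ) (k lo : ℕ) :
    gen Bo f (k + 1) lo = Nat.add (gen Bo f k lo)
      (Nat.shiftLeft (gen Bo f k (Nat.add lo (Nat.pow 2 k))) (Nat.mul Bo (Nat.pow 2 k))) := rfl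

theorem shl (a m : ℕ) : Nat.shiftLeft a m = a * 2 ^ m := Nat.shiftLeft_eq a m

theorem gen_spec (Bo : ℕ) (f : ℕ → ℕ) (D lo : ℕ) :
    gen Bo f D lo = pk Bo (2 ^ D) (fun i => f (lo + i)) := by
  induction D generalizing lo with
  | zero => rw [gen_zero, pk_one, Nat.add_zero]
  | succ k ih =>
    rw [gen_succ, ih, ih, pk_succ_pow, shl]
    have e2 : ∀ i : ℕ, Nat.add lo (Nat.pow 2 k) + i = lo + (2 ^ k + i) := fun i => by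
      show lo + 2 ^ k + i = lo + (2 ^ k + i)
      rw [add_assoc]
    simp only [e2]
    rfl

theorem genr_zero (Bo Bb : ℕ) (f : ℕ → ℕ → ℕ → ℕ) (lo y z : ℕ) : genr Bo Bb f 0 lo y z = f lo y z := rfl

theorem genr_succ (Bo Bb : ℕ) (f : ℕ → ℕ → ℕ → ℕ) (k lo y z : ℕ) :
    genr Bo Bb f (k + 1) lo y z = Nat.add
      (Nat.shiftLeft (genr Bo Bb f k lo (Nat.land y (Nat.sub (Nat.shiftLeft 1 (Nat.mul Bb (Nat.pow 2 k))) 1))
        (Nat.land z (Nat.sub (Nat.shiftLeft 1 (Nat.mul Bb (Nat.pow 2 k))) 1))) (Nat.mul Bo (Nat.pow 2 k)))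
      (genr Bo Bb f k (Nat.add lo (Nat.pow 2 k)) (Nat.shiftRight y (Nat.mul Bb (Nat.pow 2 k)))
        (Nat.shiftRight z (Nat.mul Bb (Nat.pow 2 k)))) := rfl

theorem genr_spec (Bo Bb : ℕ) (f : ℕ → ℕ → ℕ → ℕ) (D lo : ℕ) (u v : ℕ → ℕ)
    (hu : ∀ i, i < 2 ^ D → u i < 2 ^ Bb) (hv : ∀ i, i < 2 ^ D → v i < 2 ^ Bb) :
    genr Bo Bb f D lo (pk Bb (2 ^ D) u) (pk Bb (2 ^ D) v) =
      pk Bo (2 ^ D) (fun i => f (lo + (2 ^ D - 1 - i)) (u (2 ^ D - 1 - i)) (v (2 ^ D - 1 - i))) := by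
  induction D generalizing lo u v with
  | zero =>
    rw [genr_zero, pk_one, pk_one, pk_one]
    simp
  | succ k ih =>
    have hk : 2 ^ (k + 1) = 2 ^ k + 2 ^ k := by rw [pow_succ, mul_two]
    have lo2 : ∀ {i : ℕ}, i < 2 ^ k → i < 2 ^ (k + 1) := fun hi => by omega
    have hi2 : ∀ {i : ℕ}, i < 2 ^ k → 2 ^ k + i < 2 ^ (k + 1) := fun hi => by omega
    rw [genr_succ, pk_land Bb k u (fun i hi => hu i (lo2 hi)), pk_land Bb k v (fun i hi => hv i (lo2 hi)),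
      pk_shiftRight Bb k u (fun i hi => hu i (lo2 hi)), pk_shiftRight Bb k v (fun i hi => hv i (lo2 hi)),
      ih lo u v (fun i hi => hu i (lo2 hi)) (fun i hi => hv i (lo2 hi)),
      ih (Nat.add lo (Nat.pow 2 k)) (fun i => u (2 ^ k + i)) (fun i => v (2 ^ k + i))
        (fun i hi => hu _ (hi2 hi)) (fun i hi => hv _ (hi2 hi)), pk_succ_pow, shl]
    have e1 : pk Bo (2 ^ k) (fun i => f (Nat.add lo (Nat.pow 2 k) + (2 ^ k - 1 - i)) (u (2 ^ k + (2 ^ k - 1 - i)))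
        (v (2 ^ k + (2 ^ k - 1 - i)))) =
        pk Bo (2 ^ k) (fun i => f (lo + (2 ^ (k + 1) - 1 - i)) (u (2 ^ (k + 1) - 1 - i))
          (v (2 ^ (k + 1) - 1 - i))) := by
      refine pk_congr _ _ _ _ fun i hi => ?_
      have h1 : Nat.add lo (Nat.pow 2 k) + (2 ^ k - 1 - i) = lo + (2 ^ (k + 1) - 1 - i) := by
        show lo + 2 ^ k + (2 ^ k - 1 - i) = _
        omega
      have h2 : 2 ^ k + (2 ^ k - 1 - i) = 2 ^ (k + 1) - 1 - i := by omega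
      show f (Nat.add lo (Nat.pow 2 k) + (2 ^ k - 1 - i)) (u (2 ^ k + (2 ^ k - 1 - i)))
        (v (2 ^ k + (2 ^ k - 1 - i))) = _
      rw [h1, h2]
    have e2 : pk Bo (2 ^ k) (fun i => f (lo + (2 ^ k - 1 - i)) (u (2 ^ k - 1 - i)) (v (2 ^ k - 1 - i))) =
        pk Bo (2 ^ k) (fun i => f (lo + (2 ^ (k + 1) - 1 - (2 ^ k + i))) (u (2 ^ (k + 1) - 1 - (2 ^ k + i)))
          (v (2 ^ (k + 1) - 1 - (2 ^ k + i)))) := by
      refine pk_congr _ _ _ _ fun i hi => ?_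
      have h2 : 2 ^ k - 1 - i = 2 ^ (k + 1) - 1 - (2 ^ k + i) := by omega
      show f (lo + (2 ^ k - 1 - i)) (u (2 ^ k - 1 - i)) (v (2 ^ k - 1 - i)) = _
      rw [h2]
    show pk Bo (2 ^ k) (fun i => f (lo + (2 ^ k - 1 - i)) (u (2 ^ k - 1 - i)) (v (2 ^ k - 1 - i))) *
        2 ^ (Bo * 2 ^ k) +
      pk Bo (2 ^ k) (fun i => f (Nat.add lo (Nat.pow 2 k) + (2 ^ k - 1 - i)) (u (2 ^ k + (2 ^ k - 1 - i)))
        (v (2 ^ k + (2 ^ k - 1 - i)))) = _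
    rw [e1, e2, add_comm]

/-- the arrays (statement `S_ARR`) -/
theorem arr : S_ARR := by
  refine ⟨fun Bo D f => ?_, fun Bo Bb D f u v hu hv => ?_⟩
  · rw [gen_spec]
    simp only [Nat.zero_add]
  · rw [genr_spec Bo Bb f D 0 u v hu hv]
    simp only [Nat.zero_add]

/-! ### Power series -/

theorem cf_mk (r : ℕ → ℕ) : cf (PowerSeries.mk r) = r := by
  funext i
  unfold cf
  rw [PowerSeries.coeff_mk]

theorem cf_Ps (q : ℕ → ℕ) : cf (Ps q) = q := cf_mk q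

theorem cf_Ps1 (ph q : ℕ → ℕ) : cf (Ps1 ph q) = fun i => q i * ph i := cf_mk _

theorem cf_Ps2 (ph q : ℕ → ℕ) : cf (Ps2 ph q) = fun i => q i * (ph i * ph i) := cf_mk _

theorem P1_eq (Bo D : ℕ) (q : ℕ → ℕ) : P1 Bo D q = pkS Bo (2 ^ D) (Ps q) := by
  unfold P1 pkS
  rw [gen_spec, cf_Ps]
  simp only [Nat.zero_add]

theorem Q1_eq (Bo D : ℕ) (ph q : ℕ → ℕ) : Q1 Bo D ph q = pkS Bo (2 ^ D) (Ps1 ph q) := by
  unfold Q1 pkS
  rw [gen_spec, cf_Ps1]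
  simp only [Nat.zero_add]
  rfl

theorem Q2_eq (Bo D : ℕ) (ph q : ℕ → ℕ) : Q2 Bo D ph q = pkS Bo (2 ^ D) (Ps2 ph q) := by
  unfold Q2 pkS
  rw [gen_spec, cf_Ps2]
  simp only [Nat.zero_add]
  rfl

theorem mu_spec (B n X Y : ℕ) (f h : PowerSeries ℕ) (hX : X = pkS B n f)
    (hY : Y = pkS B n h) (hb : nrm n f * nrm n h < 2 ^ B) :
    mu (B * n) X Y = pkS B n (f * h) := by
  subst hX hY
  exact pkS_mul B n f h hb

theorem pk_succ_last (B n : ℕ) (u : ℕ → ℕ) : pk B (n + 1) u = pk B n u + u n * 2 ^ (B * n) := by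
  unfold pk
  rw [Finset.sum_range_succ]

/-- the top block of a packed array -/
theorem pk_top (B n : ℕ) (u : ℕ → ℕ) (h : ∀ i, i < n → u i < 2 ^ B) :
    Nat.shiftRight (pk B (n + 1) u) (B * n) = u n := by
  have e1 : ∀ x : ℕ, Nat.shiftRight x (B * n) = x / 2 ^ (B * n) := fun x =>
    Nat.shiftRight_eq_div_pow x (B * n)
  rw [e1, pk_succ_last, Nat.add_mul_div_right _ _ (Nat.two_pow_pos _),
    Nat.div_eq_of_lt (pk_lt B n u h), zero_add]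

/-- inner product of a power series and of a reversed array -/
theorem ip_spec (B n X Y : ℕ) (f : PowerSeries ℕ) (r : ℕ → ℕ) (hX : X = pkS B (n + 1) f)
    (hY : Y = pk B (n + 1) r) (hb : nrm (n + 1) f * (∑ i ∈ range (n + 1), r i) < 2 ^ B) :
    ip (B * (n + 1)) (B * n) X Y = ∑ i ∈ range (n + 1), r (n - i) * cf f i := by
  have hY' : Y = pkS B (n + 1) (PowerSeries.mk r) := by
    unfold pkS
    rw [cf_mk, hY]
  have hn : nrm (n + 1) (PowerSeries.mk r) = ∑ i ∈ range (n + 1), r i := by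
    unfold nrm
    rw [cf_mk]
  have hb' : nrm (n + 1) f * nrm (n + 1) (PowerSeries.mk r) < 2 ^ B := by rw [hn]; exact hb
  unfold ip
  rw [mu_spec B (n + 1) X Y f (PowerSeries.mk r) hX hY' hb']
  unfold pkS
  rw [pk_top B n _ (fun i hi =>
    ((coeff_le_nrm (n + 1) i (by omega) _).trans (nrm_mul (n + 1) f _)).trans_lt hb'), K2_cf_mul, cf_mk]
  exact Finset.sum_congr rfl fun i _ => mul_comm _ _

attribute [local irreducible] pk pkS nrm mu ip gen genr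

section bounds

variable {Bo D A0 A1 A2 MA : ℕ} {ph q : ℕ → ℕ}

theorem npow (h0 : nrm (2 ^ D) (Ps q) ≤ A0) (a : ℕ) : nrm (2 ^ D) (Ps q ^ a) ≤ A0 ^ a :=
  (nrm_pow (2 ^ D) a (by positivity) (Ps q)).trans (Nat.pow_le_pow_left h0 a)

theorem mpow (h0 : nrm (2 ^ D) (Ps q) ≤ A0) (hA : 1 ≤ A0) (hlt : A0 ^ 44 < 2 ^ Bo) (X Y a b : ℕ)
    (hX : X = pkS Bo (2 ^ D) (Ps q ^ a)) (hY : Y = pkS Bo (2 ^ D) (Ps q ^ b)) (hab : a + b ≤ 44) :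
    mu (Bo * 2 ^ D) X Y = pkS Bo (2 ^ D) (Ps q ^ (a + b)) := by
  rw [pow_add]
  refine mu_spec Bo (2 ^ D) X Y _ _ hX hY ?_
  refine (Nat.mul_le_mul (npow h0 a) (npow h0 b)).trans_lt ?_
  rw [← pow_add]
  exact (Nat.pow_le_pow_right hA hab).trans_lt hlt

theorem P1_eq' : P1 Bo D q = pkS Bo (2 ^ D) (Ps q ^ 1) := by
  rw [pow_one]
  exact P1_eq Bo D q

variable (h0 : nrm (2 ^ D) (Ps q) ≤ A0) (hA : 1 ≤ A0) (hlt : A0 ^ 44 < 2 ^ Bo)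

include h0 hA hlt

theorem P2_eq : P2 Bo (Bo * 2 ^ D) D q = pkS Bo (2 ^ D) (Ps q ^ 2) := by
  delta P2
  exact mpow h0 hA hlt _ _ 1 1 P1_eq' P1_eq' (by norm_num)

theorem P4_eq : P4 Bo (Bo * 2 ^ D) D q = pkS Bo (2 ^ D) (Ps q ^ 4) := by
  delta P4
  exact mpow h0 hA hlt _ _ 2 2 (P2_eq h0 hA hlt) (P2_eq h0 hA hlt) (by norm_num)

theorem P5_eq : P5 Bo (Bo * 2 ^ D) D q = pkS Bo (2 ^ D) (Ps q ^ 5) := by
  delta P5
  exact mpow h0 hA hlt _ _ 4 1 (P4_eq h0 hA hlt) P1_eq' (by norm_num)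

theorem P10_eq : P10 Bo (Bo * 2 ^ D) D q = pkS Bo (2 ^ D) (Ps q ^ 10) := by
  delta P10
  exact mpow h0 hA hlt _ _ 5 5 (P5_eq h0 hA hlt) (P5_eq h0 hA hlt) (by norm_num)

theorem P20_eq : P20 Bo (Bo * 2 ^ D) D q = pkS Bo (2 ^ D) (Ps q ^ 20) := by
  delta P20
  exact mpow h0 hA hlt _ _ 10 10 (P10_eq h0 hA hlt) (P10_eq h0 hA hlt) (by norm_num)

theorem P40_eq : P40 Bo (Bo * 2 ^ D) D q = pkS Bo (2 ^ D) (Ps q ^ 40) := by
  delta P40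
  exact mpow h0 hA hlt _ _ 20 20 (P20_eq h0 hA hlt) (P20_eq h0 hA hlt) (by norm_num)

theorem P41_eq : P41 Bo (Bo * 2 ^ D) D q = pkS Bo (2 ^ D) (Ps q ^ 41) := by
  delta P41
  exact mpow h0 hA hlt _ _ 40 1 (P40_eq h0 hA hlt) P1_eq' (by norm_num)

theorem P42_eq : P42 Bo (Bo * 2 ^ D) D q = pkS Bo (2 ^ D) (Ps q ^ 42) := by
  delta P42
  exact mpow h0 hA hlt _ _ 41 1 (P41_eq h0 hA hlt) P1_eq' (by norm_num)

theorem P43_eq : P43 Bo (Bo * 2 ^ D) D q = pkS Bo (2 ^ D) (Ps q ^ 43) := by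
  delta P43
  exact mpow h0 hA hlt _ _ 42 1 (P42_eq h0 hA hlt) P1_eq' (by norm_num)

theorem P44_eq : P44 Bo (Bo * 2 ^ D) D q = pkS Bo (2 ^ D) (Ps q ^ 44) := by
  delta P44
  exact mpow h0 hA hlt _ _ 43 1 (P43_eq h0 hA hlt) P1_eq' (by norm_num)

end bounds

section moments

variable {Bo D A0 A1 A2 : ℕ} {ph q : ℕ → ℕ}

theorem Q11_eq (h1 : nrm (2 ^ D) (Ps1 ph q) ≤ A1) (hlt1 : A1 ^ 2 < 2 ^ Bo) :
    Q11 Bo (Bo * 2 ^ D) D ph q = pkS Bo (2 ^ D) (Ps1 ph q * Ps1 ph q) := by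
  delta Q11
  refine mu_spec Bo (2 ^ D) _ _ (Ps1 ph q) (Ps1 ph q) (Q1_eq Bo D ph q) (Q1_eq Bo D ph q) ?_
  refine (Nat.mul_le_mul h1 h1).trans_lt ?_
  rw [← sq]
  exact hlt1

theorem nq11 (h1 : nrm (2 ^ D) (Ps1 ph q) ≤ A1) : nrm (2 ^ D) (Ps1 ph q * Ps1 ph q) ≤ A1 ^ 2 := by
  refine (nrm_mul (2 ^ D) _ _).trans ?_
  rw [sq]
  exact Nat.mul_le_mul h1 h1

variable (h0 : nrm (2 ^ D) (Ps q) ≤ A0) (hA : 1 ≤ A0)

include h0 hA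

/-- a factor of mass `≤ A` times a power of `q` -/
theorem nfac (f : PowerSeries ℕ) (A m M k K : ℕ) (hf : nrm (2 ^ D) f ≤ A) (hk : k ≤ K) (hm : m ≤ M) :
    m * nrm (2 ^ D) (f * Ps q ^ k) ≤ M * (A * A0 ^ K) :=
  Nat.mul_le_mul hm ((nrm_mul _ _ _).trans
    (Nat.mul_le_mul hf ((npow h0 k).trans (Nat.pow_le_pow_right hA hk))))

theorem nfac' (f : PowerSeries ℕ) (A M k K : ℕ) (hf : nrm (2 ^ D) f ≤ A) (hk : k ≤ K) (hm : 1 ≤ M) :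
    nrm (2 ^ D) f * nrm (2 ^ D) (Ps q ^ k) ≤ M * (A * A0 ^ K) := by
  have h1 : nrm (2 ^ D) f * nrm (2 ^ D) (Ps q ^ k) ≤ A * A0 ^ K :=
    Nat.mul_le_mul hf ((npow h0 k).trans (Nat.pow_le_pow_right hA hk))
  exact h1.trans (Nat.le_mul_of_pos_left _ hm)

/-- the first moment -/
theorem G1_eq (h1 : nrm (2 ^ D) (Ps1 ph q) ≤ A1)
    (hlt : A0 ^ 44 + 44 * (A1 * A0 ^ 43) + 44 * (A2 * A0 ^ 43) + 1892 * (A1 ^ 2 * A0 ^ 42) < 2 ^ Bo)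
    (m k X : ℕ) (hk : k = m - 1) (hX : X = pkS Bo (2 ^ D) (Ps q ^ k)) (hm : m ≤ 44) :
    Nat.mul m (mu (Bo * 2 ^ D) (Q1 Bo D ph q) X) = pkS Bo (2 ^ D) (G1 m (Ps q) (Ps1 ph q)) := by
  have hb := nfac' h0 hA (Ps1 ph q) A1 44 k 43 h1 (by omega) (by norm_num)
  have h := mu_spec Bo (2 ^ D) (Q1 Bo D ph q) X (Ps1 ph q) (Ps q ^ k) (Q1_eq Bo D ph q) hX (by omega)
  have h' := pkS_natCast_mul Bo (2 ^ D) m (Ps1 ph q * Ps q ^ k)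
  subst hk
  delta G1
  rw [h, h']
  exact rfl

/-- the second moment -/
theorem G2_eq (h1 : nrm (2 ^ D) (Ps1 ph q) ≤ A1) (h2 : nrm (2 ^ D) (Ps2 ph q) ≤ A2) (hlt1 : A1 ^ 2 < 2 ^ Bo)
    (hlt : A0 ^ 44 + 44 * (A1 * A0 ^ 43) + 44 * (A2 * A0 ^ 43) + 1892 * (A1 ^ 2 * A0 ^ 42) < 2 ^ Bo)
    (m k l c X Y : ℕ) (hk : k = m - 1) (hl : l = m - 2) (hX : X = pkS Bo (2 ^ D) (Ps q ^ k))
    (hY : Y = pkS Bo (2 ^ D) (Ps q ^ l)) (hm : m ≤ 44) (hc : c = m * (m - 1)) :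
    Nat.add (Nat.mul m (mu (Bo * 2 ^ D) (Q2 Bo D ph q) X)) (Nat.mul c (mu (Bo * 2 ^ D) (Q11 Bo (Bo * 2 ^ D) D ph q) Y)) =
      pkS Bo (2 ^ D) (G2 m (Ps q) (Ps1 ph q) (Ps2 ph q)) := by
  have hb1 := nfac' h0 hA (Ps2 ph q) A2 44 k 43 h2 (by omega) (by norm_num)
  have hb2 := nfac' h0 hA (Ps1 ph q * Ps1 ph q) (A1 ^ 2) 1892 l 42 (nq11 h1) (by omega) (by norm_num)
  have e1 := mu_spec Bo (2 ^ D) (Q2 Bo D ph q) X (Ps2 ph q) (Ps q ^ k) (Q2_eq Bo D ph q) hX (by omega)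
  have e2 := mu_spec Bo (2 ^ D) (Q11 Bo (Bo * 2 ^ D) D ph q) Y (Ps1 ph q * Ps1 ph q) (Ps q ^ l)
    (Q11_eq h1 hlt1) hY (by omega)
  have h3 := pkS_natCast_mul Bo (2 ^ D) m (Ps2 ph q * Ps q ^ k)
  have h4 := pkS_natCast_mul Bo (2 ^ D) (m * (m - 1)) (Ps1 ph q * Ps1 ph q * Ps q ^ l)
  subst hk hl hc
  delta G2
  rw [e1, e2, pkS_add, h3, h4]
  exact rfl

theorem nG1 (h1 : nrm (2 ^ D) (Ps1 ph q) ≤ A1) (m : ℕ) (hm : m ≤ 44) :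
    nrm (2 ^ D) (G1 m (Ps q) (Ps1 ph q)) ≤ 44 * (A1 * A0 ^ 43) := by
  delta G1
  rw [nrm_natCast_mul]
  exact nfac h0 hA (Ps1 ph q) A1 m 44 (m - 1) 43 h1 (by omega) hm

theorem nG2 (h1 : nrm (2 ^ D) (Ps1 ph q) ≤ A1) (h2 : nrm (2 ^ D) (Ps2 ph q) ≤ A2) (m : ℕ) (hm : m ≤ 44) :
    nrm (2 ^ D) (G2 m (Ps q) (Ps1 ph q) (Ps2 ph q)) ≤ 44 * (A2 * A0 ^ 43) + 1892 * (A1 ^ 2 * A0 ^ 42) := by
  delta G2
  rw [nrm_add, nrm_natCast_mul, nrm_natCast_mul]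
  have hmm : m * (m - 1) ≤ 44 * 43 := Nat.mul_le_mul hm (by omega)
  exact Nat.add_le_add (nfac h0 hA (Ps2 ph q) A2 m 44 (m - 1) 43 h2 (by omega) hm)
    (nfac h0 hA (Ps1 ph q * Ps1 ph q) (A1 ^ 2) (m * (m - 1)) 1892 (m - 2) 42 (nq11 h1) (by omega) hmm)

end moments

/-! ### The inner products -/

/-- inner product of a packed power series and of the reversed array of `r` -/
theorem ip_arr (Bo D MA S X Y : ℕ) (f : PowerSeries ℕ) (r : ℕ → ℕ) (hX : X = pkS Bo (2 ^ D) f)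
    (hY : Y = pk Bo (2 ^ D) (fun i => r (2 ^ D - 1 - i))) (hf : nrm (2 ^ D) f ≤ S)
    (hr : ∀ n, n < 2 ^ D → r n ≤ MA) (hS : S * (2 ^ D * MA) < 2 ^ Bo) :
    ip (Bo * 2 ^ D) (Bo * (2 ^ D - 1)) X Y = ∑ n ∈ range (2 ^ D), r n * cf f n := by
  obtain ⟨N, hN⟩ : ∃ N, 2 ^ D = N + 1 := ⟨2 ^ D - 1, by have := Nat.two_pow_pos D; omega⟩
  rw [hN] at hX hY hf hr hS ⊢
  rw [Nat.add_sub_cancel] at hY ⊢
  have hsum : ∑ i ∈ range (N + 1), r (N - i) ≤ (N + 1) * MA := by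
    refine (Finset.sum_le_card_nsmul _ _ MA fun i _ => hr _ (by omega)).trans ?_
    rw [card_range, smul_eq_mul]
  rw [ip_spec Bo N X Y f (fun i => r (N - i)) hX hY ((Nat.mul_le_mul hf hsum).trans_lt hS)]
  refine Finset.sum_congr rfl fun i hi => ?_
  have h1 : N - (N - i) = i := by
    have := Finset.mem_range.1 hi
    omega
  show r (N - (N - i)) * cf f i = _
  rw [h1]

/-- task DP -/
theorem pack : Pool.Agent.H529.D.S_PACK := by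
  intro Bo Bb D A0 A1 A2 MA ph q w y z h0 h1 h2 hA hM hlt1 hS hy hz hw
  have hlt : A0 ^ 44 + 44 * (A1 * A0 ^ 43) + 44 * (A2 * A0 ^ 43) + 1892 * (A1 ^ 2 * A0 ^ 42) < 2 ^ Bo :=
    (Nat.le_mul_of_pos_right _ (Nat.mul_pos (Nat.two_pow_pos D) hM)).trans_lt hS
  have hlt0 : A0 ^ 44 < 2 ^ Bo := by omega
  have hAL : AL Bo Bb D w (pk Bb (2 ^ D) y) (pk Bb (2 ^ D) z) =
      pk Bo (2 ^ D) (fun i => (fun n => w n * (y n * y n)) (2 ^ D - 1 - i)) := by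
    unfold AL
    rw [genr_spec Bo Bb _ D 0 y z hy hz]
    simp only [Nat.zero_add]
    rfl
  have hBE : BE Bo Bb D w (pk Bb (2 ^ D) y) (pk Bb (2 ^ D) z) =
      pk Bo (2 ^ D) (fun i => (fun n => w n * (2 * (y n * z n))) (2 ^ D - 1 - i)) := by
    unfold BE
    rw [genr_spec Bo Bb _ D 0 y z hy hz]
    simp only [Nat.zero_add]
    rfl
  have hGA : GA Bo Bb D w (pk Bb (2 ^ D) y) (pk Bb (2 ^ D) z) =
      pk Bo (2 ^ D) (fun i => (fun n => w n * (z n * z n)) (2 ^ D - 1 - i)) := by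
    unfold GA
    rw [genr_spec Bo Bb _ D 0 y z hy hz]
    simp only [Nat.zero_add]
    rfl
  have hE1 : E1 Bo (Bo * 2 ^ D) D ph q = pkS Bo (2 ^ D) (G1 43 (Ps q) (Ps1 ph q)) := by
    delta E1
    exact G1_eq (A2 := A2) h0 hA h1 hlt 43 42 _ (by norm_num) (P42_eq h0 hA hlt0) (by norm_num)
  have hE2 : E2 Bo (Bo * 2 ^ D) D ph q = pkS Bo (2 ^ D) (G2 43 (Ps q) (Ps1 ph q) (Ps2 ph q)) := by
    delta E2
    exact G2_eq h0 hA h1 h2 hlt1 hlt 43 42 41 1806 _ _ (by norm_num) (by norm_num) (P42_eq h0 hA hlt0)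
      (P41_eq h0 hA hlt0) (by norm_num) (by norm_num)
  have n43 : nrm (2 ^ D) (Ps q ^ 43) ≤
      A0 ^ 44 + 44 * (A1 * A0 ^ 43) + 44 * (A2 * A0 ^ 43) + 1892 * (A1 ^ 2 * A0 ^ 42) := by
    have e1 := (npow h0 43).trans (Nat.pow_le_pow_right hA (show 43 ≤ 44 by norm_num))
    omega
  have nE1 : nrm (2 ^ D) (G1 43 (Ps q) (Ps1 ph q)) ≤
      A0 ^ 44 + 44 * (A1 * A0 ^ 43) + 44 * (A2 * A0 ^ 43) + 1892 * (A1 ^ 2 * A0 ^ 42) := by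
    have e1 := nG1 h0 hA h1 43 (by norm_num)
    omega
  have nE2 : nrm (2 ^ D) (G2 43 (Ps q) (Ps1 ph q) (Ps2 ph q)) ≤
      A0 ^ 44 + 44 * (A1 * A0 ^ 43) + 44 * (A2 * A0 ^ 43) + 1892 * (A1 ^ 2 * A0 ^ 42) := by
    have e1 := nG2 h0 hA h1 h2 43 (by norm_num)
    omega
  refine ⟨?_, ?_⟩
  · delta LP
    rw [ip_arr Bo D MA _ _ _ (Ps q ^ 43) (fun n => w n * (y n * y n)) (P43_eq h0 hA hlt0) hAL n43
        (fun n hn => (hw n hn).1) hS,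
      ip_arr Bo D MA _ _ _ (G2 43 (Ps q) (Ps1 ph q) (Ps2 ph q)) (fun n => w n * (z n * z n)) hE2 hGA nE2
        (fun n hn => (hw n hn).2.2) hS]
    exact Finset.sum_add_distrib.symm
  · delta LM
    exact ip_arr Bo D MA _ _ _ (G1 43 (Ps q) (Ps1 ph q)) (fun n => w n * (2 * (y n * z n))) hE1 hBE nE1
        (fun n hn => (hw n hn).2.1) hS

end Pool.Agent.H529.D.Pack
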